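import Pool.Agent.N208.LC.Stm2
import Pool.Agent.N9.BTK

set_option autoImplicit false
set_option linter.unusedSectionVars false

/-!
# LC/U: the derived algebra of a full subalgebra is the special unitary Lie algebra

For project LC of helper208.
-/

open Module Matrix Polynomial

noncomputable section

namespace Pool.Agent.N383.LCU

open Pool.Agent.Y102 Pool.Agent.W516.DR Pool.Agent.H204R3.GP Pool.Agent.W516.KC
  Pool.Agent.H204R3.SP Pool.Agent.TH119.MX Pool.Agent.R917 Pool.Agent.N208.AM Pool.Agent.N208.AD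
  Pool.Agent.N208.BT Pool.Agent.N208.LC

variable {g : ℕ} {A : AbVar g}

/-! ### Symmetric operators -/

/-- A symmetric operator is diagonal in some basis. -/
theorem exists_eig (S : Module.End ℝ (Fin g → ℂ)) (hS : ∀ u v, A.PF (S u) v = A.PF u (S v)) :
    ∃ (u : Basis (Fin (finrank ℝ (Fin g → ℂ))) ℝ (Fin g → ℂ))
      (c : Fin (finrank ℝ (Fin g → ℂ)) → ℝ), ∀ j, S (u j) = c j • u j := by
  classical
  let M := LinearMap.toMatrix (onb A) (onb A) S
  have hM : M.IsHermitian := by
    ext i j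
    rw [Matrix.conjTranspose_apply]
    change star (LinearMap.toMatrix (onb A) (onb A) S j i) = LinearMap.toMatrix (onb A) (onb A) S i j
    rw [LinearMap.toMatrix_apply, LinearMap.toMatrix_apply, onb_repr, onb_repr, star_trivial, hS,
      A.PF_symm]
  let u : Basis (Fin (finrank ℝ (Fin g → ℂ))) ℝ (Fin g → ℂ) :=
    ((hM.eigenvectorBasis.toBasis).map
      (WithLp.linearEquiv 2 ℝ (Fin (finrank ℝ (Fin g → ℂ)) → ℝ))).map (onb A).equivFun.symm
  refine ⟨u, hM.eigenvalues, fun j => ?_⟩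
  have h1 : (onb A).equivFun (u j) = WithLp.ofLp (hM.eigenvectorBasis j) := by
    have h0 : u j = (onb A).equivFun.symm
        (WithLp.linearEquiv 2 ℝ (Fin (finrank ℝ (Fin g → ℂ)) → ℝ) (hM.eigenvectorBasis j)) := by
      simp only [u, Basis.map_apply, OrthonormalBasis.coe_toBasis]
    rw [h0, LinearEquiv.apply_symm_apply]
    rfl
  have h2 := hM.mulVec_eigenvectorBasis j
  apply (onb A).equivFun.injective
  rw [map_smul, h1, ← h2]
  have h3 := LinearMap.toMatrix_mulVec_repr (onb A) (onb A) S (u j)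
  have h4 : ((onb A).repr (u j) : Fin (finrank ℝ (Fin g → ℂ)) → ℝ) = (onb A).equivFun (u j) := rfl
  rw [h4, h1] at h3
  exact h3.symm

section

variable {z : Module.End ℚ A.H1} {al : ℝ}

theorem ext_one : A.ext (1 : Module.End ℚ A.H1) = 1 := by
  refine A.ext_per fun u => ?_
  rw [A.ext_apply, Module.End.one_apply, Module.End.one_apply]

theorem ext_pow (z : Module.End ℚ A.H1) (k : ℕ) : A.ext (z ^ k) = A.ext z ^ k := by
  induction k with
  | zero => rw [pow_zero, pow_zero, ext_one]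
  | succ k ih => rw [pow_succ, pow_succ, Pool.Agent.N208.AD.ext_mul, ih]

theorem PF_nonneg (u : Fin g → ℂ) : 0 ≤ A.PF u u := by
  by_cases h : u = 0
  · rw [h, map_zero]
  · exact (A.PF_pos h).le

theorem sym_aeval {S : Module.End ℝ (Fin g → ℂ)} (hS : ∀ u v, A.PF (S u) v = A.PF u (S v))
    (p : ℝ[X]) (u v : Fin g → ℂ) : A.PF (aeval S p u) v = A.PF u (aeval S p v) := by
  have hpow : ∀ (n : ℕ) (u v : Fin g → ℂ), A.PF ((S ^ n) u) v = A.PF u ((S ^ n) v) := by
    intro n
    induction n with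
    | zero => intro u v; rfl
    | succ n ih =>
      intro u v
      rw [pow_succ, Module.End.mul_apply, ih, hS, ← Module.End.mul_apply, ← pow_succ', pow_succ]
  induction p using Polynomial.induction_on' with
  | add p q hp hq =>
    rw [map_add, LinearMap.add_apply, LinearMap.add_apply, map_add, LinearMap.add_apply, hp, hq,
      map_add]
  | monomial n a =>
    rw [aeval_monomial, ← Algebra.smul_def, LinearMap.smul_apply, LinearMap.smul_apply, map_smul,
      LinearMap.smul_apply, hpow, map_smul]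

theorem comm_aeval {Z Y : Module.End ℝ (Fin g → ℂ)} (h : Y * Z = Z * Y) (p : ℝ[X]) :
    Y * aeval Z p = aeval Z p * Y := by
  induction p using Polynomial.induction_on' with
  | add p q hp hq => rw [map_add, mul_add, add_mul, hp, hq]
  | monomial n a =>
    have h1 : Y * Z ^ n = Z ^ n * Y := (Commute.pow_right (show Commute Y Z from h) n).eq
    rw [aeval_monomial, ← Algebra.smul_def, mul_smul_comm, smul_mul_assoc, h1]

theorem comm3 {J Y P : Module.End ℝ (Fin g → ℂ)} (h1 : J * P = P * J) (h2 : Y * P = P * Y) :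
    J * Y * J * P = P * (J * Y * J) :=
  ((show Commute J P from h1).mul_left (show Commute Y P from h2) |>.mul_left
    (show Commute J P from h1)).eq

open Pool.Agent.N755.BGWA in
/-- The projection to `V₀`. -/
theorem proj (h : HQ A z al) : ∃ q : ℝ[X], (∀ x, aeval (A.ext z) q x ∈ V0 A z al) ∧
    (∀ x ∈ V0 A z al, aeval (A.ext z) q x = x) ∧
    (∀ Y : Module.End ℝ (Fin g → ℂ), (∀ be : ℝ, be ^ 2 ≠ al ^ 2 → ∀ x ∈ V0 A z be, Y x = 0) →
      Y * aeval (A.ext z) q = Y) ∧
    ∀ u v, A.PF (aeval (A.ext z) q u) v = A.PF u (aeval (A.ext z) q v) := by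
  classical
  obtain ⟨S, hSd⟩ : ∃ S, S = A.ext z * A.ext z := ⟨_, rfl⟩
  have hSx : ∀ x, S x = A.ext z (A.ext z x) := fun x => by rw [hSd]; rfl
  have hS : ∀ u v, A.PF (S u) v = A.PF u (S v) := by
    intro u v
    rw [hSx, hSx, zPF h, zPF h, neg_neg]
  obtain ⟨u, c, hu⟩ := exists_eig S hS
  have hc : ∀ j, c j ≤ 0 := by
    intro j
    have h1 := A.PF_pos (u.ne_zero j)
    have h2 : A.PF (S (u j)) (u j) = -A.PF (A.ext z (u j)) (A.ext z (u j)) := by
      rw [hSx, zPF h]
    rw [hu, map_smul, LinearMap.smul_apply, smul_eq_mul] at h2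
    have h3 := PF_nonneg (A := A) (A.ext z (u j))
    by_contra hcon
    push Not at hcon
    have := mul_pos hcon h1
    linarith
  obtain ⟨q0, hq0⟩ : ∃ q0 : ℝ[X], q0 = ∏ t ∈ (Finset.univ.image c).erase (-al ^ 2), (X - C t) :=
    ⟨_, rfl⟩
  have hk : q0.eval (-al ^ 2) ≠ 0 := by
    rw [hq0, eval_prod, Finset.prod_ne_zero_iff]
    intro t ht
    rw [eval_sub, eval_X, eval_C, sub_ne_zero]
    exact (Finset.mem_erase.1 ht).1.symm
  obtain ⟨p, hp⟩ : ∃ p : ℝ[X], p = C (q0.eval (-al ^ 2))⁻¹ * q0 := ⟨_, rfl⟩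
  have hp1 : p.eval (-al ^ 2) = 1 := by
    rw [hp, eval_mul, eval_C, inv_mul_cancel₀ hk]
  have hp0 : ∀ j, c j ≠ -al ^ 2 → p.eval (c j) = 0 := by
    intro j hj
    have h1 : q0.eval (c j) = 0 := by
      rw [hq0, eval_prod]
      refine Finset.prod_eq_zero (Finset.mem_erase.2 ⟨hj, Finset.mem_image_of_mem c
        (Finset.mem_univ j)⟩) ?_
      rw [eval_sub, eval_X, eval_C, sub_self]
    rw [hp, eval_mul, h1, mul_zero]
  have hcomp : aeval (A.ext z) (p.comp (X ^ 2)) = aeval S p := by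
    rw [aeval_comp, map_pow, aeval_X, hSd, pow_two]
  have heig : ∀ (x : Fin g → ℂ) (r : ℝ), S x = r • x → aeval S p x = p.eval r • x := by
    intro x r hx
    by_cases hx0 : x = 0
    · rw [hx0, map_zero, smul_zero]
    · exact Module.End.aeval_apply_of_hasEigenvector
        ⟨Module.End.mem_eigenspace_iff.2 hx, hx0⟩
  have hV : ∀ (b : ℝ) (x : Fin g → ℂ), x ∈ V0 A z b ↔ S x = (-b ^ 2) • x := by
    intro b x
    rw [mem_V0, ← hSx, add_eq_zero_iff_eq_neg, neg_smul]
  refine ⟨p.comp (X ^ 2), ?_, ?_, ?_, ?_⟩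
  · intro x
    rw [hcomp, ← u.sum_repr x, map_sum]
    refine Submodule.sum_mem _ fun j _ => ?_
    rw [map_smul, heig _ _ (hu j)]
    refine Submodule.smul_mem _ _ ?_
    by_cases hj : c j = -al ^ 2
    · refine Submodule.smul_mem _ _ ?_
      rw [hV, hu, hj]
    · rw [hp0 j hj, zero_smul]
      exact Submodule.zero_mem _
  · intro x hx
    rw [hcomp, heig x _ ((hV al x).1 hx), hp1, one_smul]
  · intro Y hY
    rw [hcomp]
    refine u.ext fun j => ?_
    rw [Module.End.mul_apply, heig _ _ (hu j)]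
    by_cases hj : c j = -al ^ 2
    · rw [hj, hp1, one_smul]
    · have hb : (Real.sqrt (-c j)) ^ 2 = -c j := Real.sq_sqrt (by have := hc j; linarith)
      rw [hp0 j hj, zero_smul, map_zero, hY (Real.sqrt (-c j))]
      · rw [hb]
        intro h1
        apply hj
        linarith
      · rw [hV, hb, hu, neg_neg]
  · intro a b
    rw [hcomp]
    exact sym_aeval hS p a b

/-! ### Skew endomorphisms -/

theorem skewE {T : Module.End ℚ A.H1} (hT : ∀ u v, A.om (T u) v + A.om u (T v) = 0)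
    (u v : Fin g → ℂ) : A.E (A.ext T u) v = -A.E u (A.ext T v) := by
  have h2 : A.E.comp (A.ext T) = -(A.E.flip.comp (A.ext T)).flip := by
    refine A.ext_per fun u => A.ext_per fun v => ?_
    change A.E (A.ext T (A.per u)) (A.per v) = -A.E (A.per u) (A.ext T (A.per v))
    rw [A.ext_apply, A.ext_apply, ← A.om_coe, ← A.om_coe, ← Rat.cast_neg]
    congr 1
    linear_combination hT u v
  exact congrArg (fun F : (Fin g → ℂ) →ₗ[ℝ] (Fin g → ℂ) →ₗ[ℝ] ℝ => F u v) h2

theorem E_J (u v : Fin g → ℂ) : A.E (Complex.I • u) v = -A.E u (Complex.I • v) := by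
  have h1 := A.PF_symm u v
  rw [A.PF_apply, A.PF_apply] at h1
  rw [h1, A.E_anti]

theorem hs_I_left {n : ℕ} (sg : Fin n → ℝ) (x y : VN n) :
    hs sg (Complex.I • x) y = Complex.I * hs sg x y := by
  simp only [hs, Pi.smul_apply, smul_eq_mul, Finset.mul_sum]
  exact Finset.sum_congr rfl fun i _ => by ring

variable {N : ℕ} {sg : Fin N → ℝ} {φ : VN N →ₗ[ℝ] (Fin g → ℂ)}

theorem sks_of (w : WN A z al N sg φ) {Y : Module.End ℝ (Fin g → ℂ)}
    (hY : ∀ u v, A.E (Y u) v = -A.E u (Y v)) {m : MN N} (hm : ∀ x, Y (φ x) = φ (m *ᵥ x)) :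
    IsSks sg m := by
  have h1 : ∀ x y : VN N, (hs sg (m *ᵥ x) y + hs sg x (m *ᵥ y)).im = 0 := by
    intro x y
    rw [Complex.add_im, w.form, w.form, ← hm, ← hm, hY]
    ring
  intro x y
  have h2 := h1 x y
  have h3 := h1 (Complex.I • x) y
  rw [Matrix.mulVec_smul, hs_I_left, hs_I_left, ← mul_add, Complex.I_mul_im] at h3
  exact Complex.ext h3 h2

theorem mat_CB (h : HQ A z al) (w : WN A z al N sg φ) {T : Module.End ℚ A.H1} (hT : T ∈ CB A) :
    ∃ m : MN N, ∀ x, A.ext T (φ x) = φ (m *ᵥ x) := by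
  have h1 : T ∈ Algebra.adjoin ℚ (A.LA : Set (Module.End ℚ A.H1)) :=
    mem_adjoin_of_comm A.semi_LA fun P hP => hT P hP
  refine Algebra.adjoin_induction (p := fun X _ => ∃ m : MN N, ∀ x, A.ext X (φ x) = φ (m *ᵥ x))
    ?_ ?_ ?_ ?_ h1
  · intro X hX
    exact N441.BGSJ.mat_NA h w (A.LA_le_NA hX)
  · intro c
    refine ⟨(c : ℝ) • 1, fun x => ?_⟩
    rw [Algebra.algebraMap_eq_smul_one, Pool.Agent.N208.AD.ext_smul, ext_one, Matrix.smul_mulVec,
      Matrix.one_mulVec, map_smul]
    rfl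
  · rintro X Y _ _ ⟨m, hm⟩ ⟨m', hm'⟩
    refine ⟨m + m', fun x => ?_⟩
    rw [Pool.Agent.N208.AD.ext_add, LinearMap.add_apply, hm, hm', Matrix.add_mulVec, map_add]
  · rintro X Y _ _ ⟨m, hm⟩ ⟨m', hm'⟩
    refine ⟨m * m', fun x => ?_⟩
    rw [Pool.Agent.N208.AD.ext_mul, Module.End.mul_apply, hm', hm, Matrix.mulVec_mulVec]

/-- the matrix of the complex structure -/
def DJ (sg : Fin N → ℝ) : MN N := Matrix.diagonal fun i => (sg i : ℂ) * Complex.I

theorem DJ_spec (w : WN A z al N sg φ) (x : VN N) : Complex.I • φ x = φ (DJ sg *ᵥ x) := by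
  rw [w.cx]
  congr 1
  funext i
  unfold DJ
  rw [Matrix.mulVec_diagonal, mul_assoc]

theorem DJ_sq (hsg : IsSg sg) : DJ sg * DJ sg = -1 := by
  unfold DJ
  rw [Matrix.diagonal_mul_diagonal]
  have h1 : (fun i => (sg i : ℂ) * Complex.I * ((sg i : ℂ) * Complex.I)) = fun _ => (-1 : ℂ) := by
    funext i
    rcases hsg i with h | h
    · rw [h]
      push_cast
      linear_combination Complex.I_mul_I
    · rw [h]
      push_cast
      linear_combination Complex.I_mul_I
  rw [h1]
  ext i j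
  rw [Matrix.neg_apply, Matrix.one_apply, Matrix.diagonal_apply]
  split_ifs <;> simp

theorem trace_conj (hsg : IsSg sg) (t : MN N) : (DJ sg * t * DJ sg).trace = -t.trace := by
  rw [Matrix.trace_mul_comm, ← mul_assoc, DJ_sq hsg, neg_one_mul, Matrix.trace_neg]

theorem hs_single (sg : Fin N → ℝ) (x : VN N) (i : Fin N) :
    hs sg x (Pi.single i 1) = sg i * x i := by
  unfold hs
  rw [Finset.sum_eq_single i]
  · rw [Pi.single_eq_same, star_one, mul_one]
  · intro j _ hj
    rw [Pi.single_eq_of_ne hj, star_zero, mul_zero]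
  · intro hi
    exact absurd (Finset.mem_univ i) hi

theorem hs_single' (sg : Fin N → ℝ) (x : VN N) (i : Fin N) :
    hs sg (Pi.single i 1) x = sg i * star (x i) := by
  unfold hs
  rw [Finset.sum_eq_single i]
  · rw [Pi.single_eq_same, mul_one]
  · intro j _ hj
    rw [Pi.single_eq_of_ne hj, mul_zero, zero_mul]
  · intro hi
    exact absurd (Finset.mem_univ i) hi

theorem trace_re (hsg : IsSg sg) {t : MN N} (ht : IsSks sg t) : t.trace.re = 0 := by
  rw [Matrix.trace, Complex.re_sum]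
  refine Finset.sum_eq_zero fun i _ => ?_
  have h1 := ht (Pi.single i 1) (Pi.single i 1)
  rw [hs_single, hs_single', Matrix.mulVec_single_one] at h1
  have h2 : (sg i : ℂ) ≠ 0 := by
    rcases hsg i with h | h <;> rw [h] <;> simp
  have h3 : t i i + star (t i i) = 0 := by
    have h4 : (sg i : ℂ) * (t i i + star (t i i)) = 0 := by
      rw [mul_add]
      exact h1
    exact (mul_eq_zero.1 h4).resolve_left h2
  have h5 := congrArg Complex.re h3
  rw [Complex.add_re] at h5
  have h6 : (star (t i i)).re = (t i i).re := Complex.conj_re _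
  rw [h6] at h5
  change (t i i).re = 0
  have h7 : (0 : ℂ).re = 0 := rfl
  linarith

theorem sks_sub {t : MN N} (ht : IsSks sg t) (r : ℝ) :
    IsSks sg (t - ((r : ℂ) * Complex.I) • (1 : MN N)) := by
  intro x y
  have h1 := ht x y
  have hc : star ((r : ℂ) * Complex.I) = -((r : ℂ) * Complex.I) := by
    rw [star_mul']
    have a1 : star (r : ℂ) = r := Complex.conj_ofReal r
    have a2 : star Complex.I = -Complex.I := Complex.conj_I
    rw [a1, a2]
    ring
  rw [Matrix.sub_mulVec, Matrix.sub_mulVec, Matrix.smul_mulVec, Matrix.smul_mulVec,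
    Matrix.one_mulVec, Matrix.one_mulVec]
  have e1 : hs sg (t *ᵥ x - ((r : ℂ) * Complex.I) • x) y =
      hs sg (t *ᵥ x) y - ((r : ℂ) * Complex.I) * hs sg x y := by
    simp only [hs, Pi.sub_apply, Pi.smul_apply, smul_eq_mul, Finset.mul_sum]
    rw [← Finset.sum_sub_distrib]
    exact Finset.sum_congr rfl fun i _ => by ring
  have e2 : hs sg x (t *ᵥ y - ((r : ℂ) * Complex.I) • y) =
      hs sg x (t *ᵥ y) + ((r : ℂ) * Complex.I) * hs sg x y := by
    simp only [hs, Pi.sub_apply, Pi.smul_apply, smul_eq_mul, Finset.mul_sum]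
    rw [← Finset.sum_add_distrib]
    refine Finset.sum_congr rfl fun i _ => ?_
    rw [star_sub, star_mul', hc]
    ring
  rw [e1, e2]
  linear_combination h1

/-! ### Traces -/

theorem tr_poly {T : Module.End ℚ A.H1}
    (hT : ∀ q : Polynomial ℚ, LinearMap.trace ℚ A.H1 (T * Polynomial.aeval z q) = 0) (Q : ℝ[X]) :
    LinearMap.trace ℝ (Fin g → ℂ) (A.ext T * aeval (A.ext z) Q) = 0 := by
  induction Q using Polynomial.induction_on' with
  | add p q hp hq => rw [map_add, mul_add, map_add, hp, hq, add_zero]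
  | monomial n a =>
    have h1 := hT (X ^ n)
    rw [map_pow, aeval_X] at h1
    rw [aeval_monomial, ← Algebra.smul_def, mul_smul_comm, map_smul, ← ext_pow,
      ← Pool.Agent.N208.AD.ext_mul, trace_ext, h1, Rat.cast_zero, smul_zero]

theorem tr_sp {T : Module.End ℚ A.H1} {S : Submodule ℚ (Module.End ℚ A.H1)}
    (hT : ∀ d ∈ S, LinearMap.trace ℚ A.H1 (T * d) = 0) {y : Module.End ℝ (Fin g → ℂ)}
    (hy : y ∈ spE A (S : Set (Module.End ℚ A.H1))) :
    LinearMap.trace ℝ (Fin g → ℂ) (A.ext T * y) = 0 := by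
  induction hy using Submodule.span_induction with
  | mem y hy =>
    obtain ⟨X, hX, rfl⟩ := hy
    rw [← Pool.Agent.N208.AD.ext_mul, trace_ext, hT X hX, Rat.cast_zero]
  | zero => rw [mul_zero, map_zero]
  | add a b _ _ ha hb => rw [mul_add, map_add, ha, hb, add_zero]
  | smul c a _ ha => rw [mul_smul_comm, map_smul, ha, smul_zero]

/-- The derived algebra is in the special unitary Lie algebra. -/
theorem der_le_UU (hz : z ∈ A.EA) {𝔮 : Submodule ℚ (Module.End ℚ A.H1)} (hq : A.Full 𝔮) :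
    der 𝔮 ≤ UU A z := by
  unfold der
  rw [Submodule.span_le]
  rintro _ ⟨X, hX, Y, hY, rfl⟩
  have hXN := hq.le hX
  have hYN := hq.le hY
  have hb := A.NA_bracket hXN hYN
  refine ⟨fun P hP => A.NA_comm hb hP, fun u v => A.NA_skew hb u v, fun q => ?_⟩
  have hc : Y * Polynomial.aeval z q = Polynomial.aeval z q * Y := by
    have h1 : Y * z = z * Y := A.NA_comm hYN hz
    induction q using Polynomial.induction_on' with
    | add p q hp hq => rw [map_add, mul_add, add_mul, hp, hq]
    | monomial n a =>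
      have h2 : Y * z ^ n = z ^ n * Y := (Commute.pow_right (show Commute Y z from h1) n).eq
      rw [Polynomial.aeval_monomial, ← Algebra.smul_def, mul_smul_comm, smul_mul_assoc, h2]
  rw [tr_br, hc, sub_self, mul_zero, map_zero]

/-! ### Endomorphisms which vanish on `V₀` -/

theorem K (h : HQ A z al)
    (field : ∀ q : Polynomial ℚ, Polynomial.aeval z q ≠ 0 →
      Function.Injective (Polynomial.aeval z q))
    {y : Module.End ℚ A.H1} (hy : ∀ x ∈ V0 A z al, A.ext y x = 0) : y = 0 := by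
  obtain ⟨f, hf⟩ : ∃ f, f = minpoly ℚ z := ⟨_, rfl⟩
  have hint : IsIntegral ℚ z := Algebra.IsIntegral.isIntegral z
  have hf0 : f ≠ 0 := by rw [hf]; exact minpoly.ne_zero hint
  have hfz : aeval z f = 0 := by rw [hf]; exact minpoly.aeval ℚ z
  obtain ⟨F, hF⟩ : ∃ F : ℝ[X], F = f.map (algebraMap ℚ ℝ) := ⟨_, rfl⟩
  have hFz : aeval (A.ext z) F = 0 := by
    rw [hF, ← N9.BTK.ext_aeval, hfz, Pool.Agent.N208.AD.ext_zero]
  have hF0 : F ≠ 0 := by
    rw [hF]
    exact (Polynomial.map_ne_zero_iff (algebraMap ℚ ℝ).injective).2 hf0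
  have hFd : F.natDegree = f.natDegree := by
    rw [hF]
    exact Polynomial.natDegree_map_eq_of_injective (algebraMap ℚ ℝ).injective f
  obtain ⟨P, hP⟩ : ∃ P : ℝ[X], P = X ^ 2 + C (al ^ 2) := ⟨_, rfl⟩
  have hPm : P.Monic := by
    rw [hP]
    exact monic_X_pow_add_C _ two_ne_zero
  have hPd : P.degree = 2 := by
    rw [hP]
    exact degree_X_pow_add_C two_pos _
  have hPn : P.natDegree = 2 := natDegree_eq_of_degree_eq_some hPd
  have hPz : aeval (A.ext z) P =
      A.ext z * A.ext z + (al ^ 2) • (1 : Module.End ℝ (Fin g → ℂ)) := by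
    rw [hP, map_add, map_pow, aeval_X, aeval_C, pow_two, Algebra.algebraMap_eq_smul_one]
  obtain ⟨x, hx, hx0⟩ := h.ex
  have hPx : aeval (A.ext z) P x = 0 := by
    rw [hPz]
    exact hx
  have hxx : A.ext z (A.ext z x) = -((al ^ 2) • x) :=
    eq_neg_of_add_eq_zero_left (N755.BGWA.mem_V0.1 hx)
  obtain ⟨h', hh⟩ : ∃ h', F = P * h' := by
    obtain ⟨r, hr⟩ : ∃ r, r = F %ₘ P := ⟨_, rfl⟩
    have h1 : r + P * (F /ₘ P) = F := by rw [hr]; exact modByMonic_add_div F P
    have h2 : r.degree < 2 := by rw [hr, ← hPd]; exact degree_modByMonic_lt F hPm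
    have h3 : r.degree ≤ 1 := by
      by_cases hr0 : r = 0
      · rw [hr0, degree_zero]
        exact bot_le
      · rw [degree_eq_natDegree hr0] at h2 ⊢
        have h30 : r.natDegree < 2 := by exact_mod_cast h2
        have h31 : r.natDegree ≤ 1 := by omega
        exact_mod_cast h31
    have h4 : r = C (r.coeff 1) * X + C (r.coeff 0) := eq_X_add_C_of_degree_le_one h3
    have h5 : aeval (A.ext z) r x = 0 := by
      have h6 : aeval (A.ext z) F x = 0 := by rw [hFz, LinearMap.zero_apply]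
      rw [← h1, map_add, mul_comm P, map_mul, LinearMap.add_apply, Module.End.mul_apply, hPx,
        map_zero, add_zero] at h6
      exact h6
    rw [h4, map_add, map_mul, aeval_C, aeval_C, aeval_X, Algebra.algebraMap_eq_smul_one,
      Algebra.algebraMap_eq_smul_one, smul_mul_assoc, one_mul, LinearMap.add_apply,
      LinearMap.smul_apply, LinearMap.smul_apply, Module.End.one_apply] at h5
    have h6 := congrArg (A.ext z) h5
    rw [map_add, map_smul, map_smul, hxx, map_zero] at h6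
    have h7 : (r.coeff 0 ^ 2 + r.coeff 1 ^ 2 * al ^ 2) • x = 0 := by
      have e1 : r.coeff 0 • (r.coeff 1 • A.ext z x + r.coeff 0 • x) = 0 := by
        rw [h5, smul_zero]
      have e2 : r.coeff 1 • (r.coeff 1 • -((al ^ 2) • x) + r.coeff 0 • A.ext z x) = 0 := by
        rw [h6, smul_zero]
      have e3 : (r.coeff 0 ^ 2 + r.coeff 1 ^ 2 * al ^ 2) • x =
          r.coeff 0 • (r.coeff 1 • A.ext z x + r.coeff 0 • x) -
            r.coeff 1 • (r.coeff 1 • -((al ^ 2) • x) + r.coeff 0 • A.ext z x) := by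
        module
      rw [e3, e1, e2, sub_self]
    have h8 := (smul_eq_zero.1 h7).resolve_right hx0
    have h9 : 0 < al ^ 2 := by
      have := h.ne
      positivity
    have h10 : r.coeff 1 = 0 := by
      have a1 : r.coeff 1 ^ 2 * al ^ 2 ≤ 0 := by nlinarith [sq_nonneg (r.coeff 0)]
      have a2 : r.coeff 1 ^ 2 ≤ 0 := by
        by_contra hcon
        push Not at hcon
        have := mul_pos hcon h9
        linarith
      exact pow_eq_zero_iff (two_ne_zero) |>.1 (le_antisymm a2 (sq_nonneg _))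
    have h11 : r.coeff 0 = 0 := by
      rw [h10] at h8
      have a1 : r.coeff 0 ^ 2 = 0 := by linarith
      exact pow_eq_zero_iff (two_ne_zero) |>.1 a1
    have h13 : r = 0 := by
      rw [h4, h10, h11]
      simp
    refine ⟨F /ₘ P, ?_⟩
    rw [h13, zero_add] at h1
    exact h1.symm
  have hh0 : h' ≠ 0 := by
    intro h1
    rw [h1, mul_zero] at hh
    exact hF0 hh
  have hdeg : h'.natDegree + 2 = f.natDegree := by
    rw [← hFd, hh, natDegree_mul hPm.ne_zero hh0, hPn, add_comm]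
  have hker : ∀ x, A.ext y (aeval (A.ext z) h' x) = 0 := by
    intro x
    apply hy
    unfold V0
    rw [LinearMap.mem_ker, ← hPz, ← Module.End.mul_apply, ← map_mul, ← hh, hFz,
      LinearMap.zero_apply]
  obtain ⟨lam, hlam⟩ : ∃ lam : ℝ →ₗ[ℚ] ℚ, lam h'.leadingCoeff ≠ 0 := by
    by_contra hcon
    push Not at hcon
    exact hh0 (leadingCoeff_eq_zero.1 (exists_sep hcon))
  obtain ⟨q, hq⟩ : ∃ q : ℚ[X], q = ∑ k ∈ Finset.range (h'.natDegree + 1),
    monomial k (lam (h'.coeff k)) := ⟨_, rfl⟩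
  have hqz : ∀ w, aeval z q w =
      ∑ k ∈ Finset.range (h'.natDegree + 1), lam (h'.coeff k) • (z ^ k) w := by
    intro w
    rw [hq, map_sum, LinearMap.sum_apply]
    refine Finset.sum_congr rfl fun k _ => ?_
    rw [aeval_monomial, ← Algebra.smul_def, LinearMap.smul_apply]
  have hyq : ∀ w, y (aeval z q w) = 0 := by
    intro w
    have h1 := congrArg (A.cmp lam) (hker (A.per w))
    rw [N9.BTK.aeval_per, map_zero, A.cmp_ext, map_sum] at h1
    rw [hqz]
    simp only [A.cmp_smul_per] at h1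
    exact h1
  have hq0 : q.coeff h'.natDegree ≠ 0 := by
    rw [hq, finsetSum_coeff, Finset.sum_eq_single h'.natDegree]
    · rw [coeff_monomial, if_pos rfl]
      exact hlam
    · intro k _ hk
      rw [coeff_monomial, if_neg hk]
    · intro h1
      exact absurd (Finset.self_mem_range_succ _) h1
  have hqne : q ≠ 0 := by
    intro h1
    rw [h1] at hq0
    exact hq0 (coeff_zero _)
  have hqd : q.degree ≤ h'.natDegree := by
    rw [hq]
    refine (degree_sum_le _ _).trans ?_
    refine Finset.sup_le fun k hk => ?_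
    refine (degree_monomial_le _ _).trans ?_
    have := Finset.mem_range.1 hk
    exact_mod_cast (show k ≤ h'.natDegree by omega)
  have hqz0 : aeval z q ≠ 0 := by
    intro h1
    have h2 := minpoly.degree_le_of_ne_zero ℚ z hqne h1
    rw [← hf, degree_eq_natDegree hf0] at h2
    have h3 := h2.trans hqd
    have h4 : f.natDegree ≤ h'.natDegree := by exact_mod_cast h3
    omega
  have hinj := field q hqz0
  have hsurj : Function.Surjective (aeval z q) := LinearMap.injective_iff_surjective.1 hinj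
  refine LinearMap.ext fun v => ?_
  obtain ⟨w, rfl⟩ := hsurj v
  rw [hyq, LinearMap.zero_apply]

/-! ### The orthogonal complement of the derived algebra -/

open Pool.Agent.N755.BGWA in
theorem claim (hCPT : S_CPT) {Sg : Finset ℝ} (H : HL A z Sg)
    {𝔮 : Submodule ℚ (Module.End ℚ A.H1)} (hq : A.Full 𝔮) {T : Module.End ℚ A.H1}
    (hT : T ∈ UU A z) (h0 : ∀ d ∈ der 𝔮, LinearMap.trace ℚ A.H1 (T * d) = 0) : T = 0 := by
  obtain ⟨hTC, hTs, hTt⟩ := hT
  obtain ⟨al, hal⟩ := H.ne
  have hQ := H.hg.hq al hal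
  obtain ⟨W, hW⟩ := N755.BGWA.main g A z al hQ
  obtain ⟨N, sg, φ, w⟩ := N455.BGWB.main g A z al hQ W hW
  obtain ⟨t, ht⟩ := mat_CB hQ w hTC
  have hsk : IsSks sg t := sks_of w (skewE hTs) ht
  have hNpos : (N : ℂ) ≠ 0 := by
    have := w.pos
    exact_mod_cast this.ne'
  obtain ⟨ρ, hρ⟩ : ∃ ρ : ℝ, t.trace = N * ((ρ : ℂ) * Complex.I) := by
    refine ⟨t.trace.im / N, ?_⟩
    have h1 : t.trace = (t.trace.im : ℂ) * Complex.I := by
      apply Complex.ext
      · rw [trace_re w.isSg hsk]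
        simp
      · simp
    conv_lhs => rw [h1]
    push_cast
    field_simp
  -- commutation
  have hTP : ∀ P ∈ A.EA, A.ext T * A.ext P = A.ext P * A.ext T := fun P hP => by
    rw [← Pool.Agent.N208.AD.ext_mul, ← Pool.Agent.N208.AD.ext_mul, hTC P hP]
  have hzP : ∀ P ∈ A.EA, A.ext z * A.ext P = A.ext P * A.ext z := fun P hP => by
    rw [← Pool.Agent.N208.AD.ext_mul, ← Pool.Agent.N208.AD.ext_mul, hQ.cen P hP]
  have hJP : ∀ P ∈ A.EA, (AbVar.JJ : Module.End ℝ (Fin g → ℂ)) * A.ext P = A.ext P * AbVar.JJ :=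
    fun P hP => LinearMap.ext fun x => by
      rw [Module.End.mul_apply, Module.End.mul_apply, AbVar.JJ_apply, AbVar.JJ_apply,
        AbVar.CR_complex A.endAlg (mem_CR hP)]
  obtain ⟨q, e1, e2, e3, e4⟩ := proj hQ
  obtain ⟨e, he⟩ : ∃ e, e = aeval (A.ext z) q := ⟨_, rfl⟩
  rw [← he] at e1 e2 e3 e4
  have hze : e * A.ext z = A.ext z * e := by
    rw [he]
    exact (comm_aeval rfl q).symm
  have hzV : ∀ x ∈ V0 A z al, A.ext z x ∈ V0 A z al := (V0_good hQ).stabz
  have hz2 : ∀ x ∈ V0 A z al, A.ext z (A.ext z x) = -((al ^ 2) • x) := fun x hx =>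
    eq_neg_of_add_eq_zero_left (mem_V0.1 hx)
  -- the trace is zero
  have hρ0 : ρ = 0 := by
    have htr0 : (t - ((ρ : ℂ) * Complex.I) • (1 : MN N)).trace = 0 := by
      rw [Matrix.trace_sub, Matrix.trace_smul, Matrix.trace_one, Fintype.card_fin, hρ, smul_eq_mul]
      ring
    obtain ⟨y, hy, hy1, hy2⟩ := hCPT g A z Sg H al hal N sg φ w 𝔮 hq _ (sks_sub hsk ρ) htr0
    have hyN := N441.BGSJ.der_spE hq hy
    have hV := w.gen (A.ext T - y - (ρ * al⁻¹) • A.ext z)
      (fun P hP => by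
        rw [sub_mul, sub_mul, mul_sub, mul_sub, hTP P hP, N441.BGSJ.spE_comm hyN hP,
          smul_mul_assoc, mul_smul_comm, hzP P hP])
      (fun x => by
        have e7 : (ρ * al⁻¹) • A.ext z (φ x) = ρ • φ (Complex.I • x) := by
          rw [w.mulI, smul_smul]
        rw [LinearMap.sub_apply, LinearMap.sub_apply, LinearMap.smul_apply, ht, hy1, e7,
          Matrix.sub_mulVec, Matrix.smul_mulVec, Matrix.one_mulVec, ← map_smul,
          ← map_sub, ← map_sub]
        have e5 : t *ᵥ x - (t *ᵥ x - ((ρ : ℂ) * Complex.I) • x) - ρ • (Complex.I • x) = 0 := by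
          rw [mul_smul]
          have e6 : ρ • (Complex.I • x) = (ρ : ℂ) • (Complex.I • x) := rfl
          rw [e6]
          abel
        rw [e5, map_zero])
    have hop : A.ext T * (A.ext z * e) = y * A.ext z + (-(ρ * al⁻¹ * al ^ 2)) • e := by
      have h1 : y * A.ext z = y * (A.ext z * e) := by
        conv_lhs => rw [← e3 y hy2]
        rw [mul_assoc, hze]
      rw [h1]
      refine LinearMap.ext fun x => ?_
      have h2 := hV _ (hzV _ (e1 x))
      rw [LinearMap.sub_apply, LinearMap.sub_apply, LinearMap.smul_apply, hz2 _ (e1 x)] at h2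
      rw [LinearMap.add_apply, LinearMap.smul_apply]
      simp only [Module.End.mul_apply]
      have h3 : A.ext T (A.ext z (e x)) = (A.ext T (A.ext z (e x)) - y (A.ext z (e x)) -
          (ρ * al⁻¹) • -((al ^ 2) • e x)) + (y (A.ext z (e x)) +
          (ρ * al⁻¹) • -((al ^ 2) • e x)) := by abel
      rw [h3, h2, zero_add]
      congr 1
      module
    have htr1 := tr_poly hTt (X * q)
    have hXq : aeval (A.ext z) (X * q) = A.ext z * e := by rw [map_mul, aeval_X, he]
    rw [hXq, hop, map_add, map_smul] at htr1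
    have htr2 : LinearMap.trace ℝ (Fin g → ℂ) (y * A.ext z) = 0 := by
      rw [LinearMap.trace_mul_comm]
      refine tr_sp (T := z) (S := der 𝔮) (fun d hd => ?_) hy
      have h1 := (der_le_UU hQ.mem hq hd).2.2 X
      rw [aeval_X] at h1
      rw [LinearMap.trace_mul_comm]
      exact h1
    have htr3 : LinearMap.trace ℝ (Fin g → ℂ) e = finrank ℝ (V0 A z al) :=
      LinearMap.IsProj.trace ⟨e1, e2⟩
    have hpos : 0 < finrank ℝ (V0 A z al) := by
      obtain ⟨x, hx, hx0⟩ := hQ.ex
      have : Nontrivial (V0 A z al) := ⟨⟨⟨x, hx⟩, 0, fun h1 => hx0 (congrArg Subtype.val h1)⟩⟩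
      exact finrank_pos
    rw [htr2, zero_add, htr3, smul_eq_mul] at htr1
    have h5 : ((finrank ℝ (V0 A z al) : ℕ) : ℝ) ≠ 0 := by exact_mod_cast hpos.ne'
    have h6 := (mul_eq_zero.1 htr1).resolve_right h5
    have h7 : ρ * al = 0 := by
      have h8 := hQ.ne
      field_simp at h6
      linarith
    exact (mul_eq_zero.1 h7).resolve_right hQ.ne
  have htr : t.trace = 0 := by
    rw [hρ, hρ0]
    simp
  -- the adjoint
  obtain ⟨T', hT'⟩ : ∃ T' : Module.End ℝ (Fin g → ℂ), T' = AbVar.JJ * A.ext T * AbVar.JJ := ⟨_, rfl⟩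
  have hT'x : ∀ x, T' x = Complex.I • A.ext T (Complex.I • x) := fun x => by rw [hT']; rfl
  have hT'm : ∀ x, T' (φ x) = φ ((DJ sg * t * DJ sg) *ᵥ x) := by
    intro x
    rw [hT'x, DJ_spec w, ht, DJ_spec w, Matrix.mulVec_mulVec, Matrix.mulVec_mulVec, mul_assoc]
  have hT's : ∀ u v, A.E (T' u) v = -A.E u (T' v) := by
    intro u v
    rw [hT'x, hT'x, E_J, skewE hTs, E_J, neg_neg]
  obtain ⟨y', hy', hy1', hy2'⟩ := hCPT g A z Sg H al hal N sg φ w 𝔮 hq _ (sks_of w hT's hT'm)
    (by rw [trace_conj w.isSg, htr, neg_zero])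
  have hyN' := N441.BGSJ.der_spE hq hy'
  have hV' := w.gen (T' - y')
    (fun P hP => by
      rw [sub_mul, mul_sub, N441.BGSJ.spE_comm hyN' hP, hT', comm3 (hJP P hP) (hTP P hP)])
    (fun x => by rw [LinearMap.sub_apply, hT'm, hy1', sub_self])
  have hyT : y' = T' * e := by
    rw [← e3 y' hy2']
    refine LinearMap.ext fun x => ?_
    have h1 := hV' _ (e1 x)
    rw [LinearMap.sub_apply, sub_eq_zero] at h1
    exact h1.symm
  have htr4 := tr_sp h0 hy'
  rw [hyT] at htr4
  have hT'z : T' * A.ext z = A.ext z * T' := by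
    rw [hT', comm3 (hJP z hQ.mem) (hTP z hQ.mem)]
  have hT'e : T' * e = e * T' := by
    rw [he]
    exact comm_aeval hT'z q
  have hee : e * e = e := LinearMap.ext fun x => e2 _ (e1 x)
  have hTe : A.ext T * e = 0 := by
    by_contra hne
    have h1 := tr_adj_pos (A := A) (Y := A.ext T * e) (Y' := e * T') (fun u v => by
      rw [Module.End.mul_apply, Module.End.mul_apply, ← e4, A.PF_apply, A.PF_apply, skewE hTs,
        hT'x, smul_smul, Complex.I_mul_I, neg_one_smul, map_neg]) hne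
    have h2 : A.ext T * e * (e * T') = A.ext T * (T' * e) := by
      rw [hT'e, mul_assoc, ← mul_assoc e, hee]
    rw [h2, htr4] at h1
    exact lt_irrefl _ h1
  refine K hQ H.field fun x hx => ?_
  rw [← e2 x hx, ← Module.End.mul_apply, hTe, LinearMap.zero_apply]

end

/-- **LC/U.** -/
theorem main : S_CPT → S_U := by
  intro hCPT g A z Sg H 𝔮 hq
  obtain ⟨al, hal⟩ := H.ne
  have hz := (H.hg.hq al hal).mem
  have h1 := der_le_UU hz hq
  let f : UU A z →ₗ[ℚ] Module.Dual ℚ (der 𝔮) :=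
    { toFun := fun T => ((LinearMap.trace ℚ A.H1).comp (LinearMap.mulLeft ℚ T.1)).comp
        (der 𝔮).subtype
      map_add' := fun a b => by
        refine LinearMap.ext fun d => ?_
        change LinearMap.trace ℚ A.H1 ((a.1 + b.1) * d.1) =
          LinearMap.trace ℚ A.H1 (a.1 * d.1) + LinearMap.trace ℚ A.H1 (b.1 * d.1)
        rw [add_mul, map_add]
      map_smul' := fun c a => by
        refine LinearMap.ext fun d => ?_
        change LinearMap.trace ℚ A.H1 ((c • a.1) * d.1) = c • LinearMap.trace ℚ A.H1 (a.1 * d.1)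
        rw [smul_mul_assoc, map_smul] }
  have hf : Function.Injective f := by
    rw [injective_iff_map_eq_zero]
    intro T hT
    refine Subtype.ext (claim hCPT H hq T.2 fun d hd => ?_)
    exact LinearMap.congr_fun hT ⟨d, hd⟩
  have h2 := LinearMap.finrank_le_finrank_of_injective hf
  have h3 : finrank ℚ (Module.Dual ℚ (der 𝔮)) = finrank ℚ (der 𝔮) :=
    Subspace.dual_finrank_eq (K := ℚ) (V := der 𝔮)
  exact (Submodule.eq_of_le_of_finrank_le h1 (h2.trans h3.le)).ge

end Pool.Agent.N383.LCU
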