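import Mathlib

set_option autoImplicit false

/-!
Largest square in an odd-dimensional cube: the two halves of the proof.

* `core`: if `p, q` are vectors of odd length with entries in `[-1,1]`, equal norms and `p ⬝ q = 0`,
  then `∑ p i ^ 2 ≤ N - 3/4`.
* `Pv`, `Qv`: the extremal diagonals.
-/

namespace Pool.Agent.N383.BF

open Finset

/-- The pointwise inequality. -/
lemma pointwise (P Q A E : ℝ) (hP : P ^ 2 ≤ 1) (hQ : Q ^ 2 ≤ 1)
    (hA : A = |P ^ 2 - Q ^ 2|) (hE : E = 1 - max (P ^ 2) (Q ^ 2)) (h : A + E ≤ 3 / 4) :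
    1 - |P * Q| ≤ E + 2 / 3 * A := by
  have hE0 : 0 ≤ E := by
    rw [hE]
    have := max_le hP hQ
    linarith
  have hA0 : 0 ≤ A := by rw [hA]; exact abs_nonneg _
  have hx : |P * Q| ^ 2 = (1 - E) * (1 - E - A) := by
    rw [sq_abs, mul_pow, hE, hA]
    rcases le_total (P ^ 2) (Q ^ 2) with hc | hc
    · rw [max_eq_right hc, abs_of_nonpos (by linarith)]; ring
    · rw [max_eq_left hc, abs_of_nonneg (by linarith)]; ring
  have h1 : (1 - E - 2 / 3 * A) ^ 2 ≤ |P * Q| ^ 2 := by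
    rw [hx]
    nlinarith
  have h2 : 1 - E - 2 / 3 * A ≤ |P * Q| := abs_le_of_sq_le_sq' h1 (abs_nonneg _) |>.2
  linarith

/-- Parity: an odd number of entries in `[-1,1]` with sum zero. -/
lemma parity {N : ℕ} (hN : Odd N) (z : Fin N → ℝ) (hz : ∀ i, |z i| ≤ 1) (h0 : ∑ i, z i = 0) :
    1 ≤ ∑ i, (1 - |z i|) := by
  classical
  obtain ⟨e, he⟩ : ∃ e : Fin N → ℤ, ∀ i, e i = if 0 ≤ z i then 1 else -1 := ⟨_, fun _ => rfl⟩
  have hodd : Odd (∑ i, e i) := by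
    have h1 : ∀ i, Odd (e i) := by
      intro i
      rw [he]
      split_ifs
      · exact odd_one
      · exact ⟨-1, by norm_num⟩
    have h2 : ((∑ i, e i : ℤ) : ZMod 2) = 1 := by
      push_cast
      have : ∀ i, ((e i : ℤ) : ZMod 2) = 1 := fun i => (ZMod.intCast_eq_one_iff_odd).2 (h1 i)
      rw [Finset.sum_congr rfl (fun i _ => this i)]
      simp only [sum_const, card_univ, Fintype.card_fin, nsmul_eq_mul, mul_one]
      exact ZMod.natCast_eq_one_iff_odd.2 hN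
    exact (ZMod.intCast_eq_one_iff_odd).1 h2
  have hne : (1 : ℤ) ≤ |∑ i, e i| := by
    apply Int.one_le_abs
    intro h
    rw [h] at hodd
    exact absurd hodd (by decide)
  have h3 : (1 : ℝ) ≤ |∑ i, ((e i : ℝ))| := by
    have : ((1 : ℤ) : ℝ) ≤ ((|∑ i, e i| : ℤ) : ℝ) := by exact_mod_cast hne
    push_cast at this
    exact this
  have h4 : ∑ i, ((e i : ℝ)) = ∑ i, ((e i : ℝ) - z i) := by
    rw [sum_sub_distrib, h0, sub_zero]
  rw [h4] at h3
  refine h3.trans ((abs_sum_le_sum_abs _ _).trans (sum_le_sum fun i _ => ?_))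
  rw [he]
  have := abs_le.1 (hz i)
  split_ifs with hc
  · rw [abs_of_nonneg hc]
    push_cast
    rw [abs_of_nonneg (by linarith)]
  · rw [not_le] at hc
    rw [abs_of_neg hc]
    push_cast
    rw [abs_of_nonpos (by linarith)]
    linarith

/-- The core inequality. -/
theorem core {N : ℕ} (hN : Odd N) (p q : Fin N → ℝ) (hp : ∀ i, |p i| ≤ 1) (hq : ∀ i, |q i| ≤ 1)
    (hpq : ∑ i, p i * q i = 0) (heq : ∑ i, p i ^ 2 = ∑ i, q i ^ 2) :
    ∑ i, p i ^ 2 ≤ N - 3 / 4 := by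
  classical
  by_contra hcon
  push Not at hcon
  have hp2 : ∀ i, p i ^ 2 ≤ 1 := fun i => by
    have := abs_le.1 (hp i)
    nlinarith
  have hq2 : ∀ i, q i ^ 2 ≤ 1 := fun i => by
    have := abs_le.1 (hq i)
    nlinarith
  obtain ⟨A, hA⟩ : ∃ A : Fin N → ℝ, ∀ i, A i = |p i ^ 2 - q i ^ 2| := ⟨_, fun _ => rfl⟩
  obtain ⟨E, hE⟩ : ∃ E : Fin N → ℝ, ∀ i, E i = 1 - max (p i ^ 2) (q i ^ 2) := ⟨_, fun _ => rfl⟩
  have hA0 : ∀ i, 0 ≤ A i := fun i => by rw [hA]; exact abs_nonneg _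
  have hE0 : ∀ i, 0 ≤ E i := fun i => by
    rw [hE]
    have := max_le (hp2 i) (hq2 i)
    linarith
  -- the loss
  have hloss : ∀ i, 2 - p i ^ 2 - q i ^ 2 = A i + 2 * E i := by
    intro i
    rw [hA, hE]
    rcases le_total (p i ^ 2) (q i ^ 2) with hc | hc
    · rw [max_eq_right hc, abs_of_nonpos (by linarith)]; ring
    · rw [max_eq_left hc, abs_of_nonneg (by linarith)]; ring
  have hsum : ∑ i, A i + 2 * ∑ i, E i < 3 / 2 := by
    have h1 : ∑ i, (2 - p i ^ 2 - q i ^ 2) = ∑ i, A i + 2 * ∑ i, E i := by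
      rw [Finset.mul_sum, ← sum_add_distrib]
      exact sum_congr rfl fun i _ => hloss i
    have h2 : ∑ i, (2 - p i ^ 2 - q i ^ 2) = 2 * (N : ℝ) - 2 * ∑ i, p i ^ 2 := by
      rw [sum_sub_distrib, sum_sub_distrib, ← heq]
      simp only [sum_const, card_univ, Fintype.card_fin, nsmul_eq_mul]
      ring
    rw [← h1, h2]
    linarith
  -- each `A i` is at most half of the total
  have hhalf : ∀ i, 2 * A i ≤ ∑ j, A j := by
    intro i
    have h1 : ∑ j, (p j ^ 2 - q j ^ 2) = 0 := by rw [sum_sub_distrib, heq, sub_self]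
    have h2 := (Finset.add_sum_erase univ (fun j => p j ^ 2 - q j ^ 2) (mem_univ i)).symm
    have h3 := (Finset.add_sum_erase univ (fun j => A j) (mem_univ i)).symm
    have h4 : A i ≤ ∑ j ∈ univ.erase i, A j := by
      have h5 : p i ^ 2 - q i ^ 2 = -∑ j ∈ univ.erase i, (p j ^ 2 - q j ^ 2) := by
        rw [h1] at h2
        linarith
      rw [hA i, h5, abs_neg]
      refine (abs_sum_le_sum_abs _ _).trans (le_of_eq (sum_congr rfl fun j _ => (hA j).symm))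
    rw [h3]
    linarith
  have hEi : ∀ i, E i ≤ ∑ j, E j := fun i =>
    Finset.single_le_sum (f := E) (fun j _ => hE0 j) (mem_univ i)
  have hpt : ∀ i, 1 - |p i * q i| ≤ E i + 2 / 3 * A i := by
    intro i
    refine pointwise (p i) (q i) (A i) (E i) (hp2 i) (hq2 i) (hA i) (hE i) ?_
    have h1 := hhalf i
    have h2 := hEi i
    linarith
  have hpar := parity hN (fun i => p i * q i) (fun i => by
    rw [abs_mul]
    exact mul_le_one₀ (hp i) (abs_nonneg _) (hq i)) hpq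
  have h5 : ∑ i, (1 - |p i * q i|) ≤ ∑ i, E i + 2 / 3 * ∑ i, A i := by
    rw [Finset.mul_sum, ← sum_add_distrib]
    exact sum_le_sum fun i _ => hpt i
  have hAs : 0 ≤ ∑ i, A i := sum_nonneg fun i _ => hA0 i
  have hEs : 0 ≤ ∑ i, E i := sum_nonneg fun i _ => hE0 i
  linarith

/-- The first extremal diagonal. -/
noncomputable def Pv (j : ℕ) : ℝ := if j = 2 then 1 / 2 else 1

/-- The second extremal diagonal. -/
noncomputable def Qv (j : ℕ) : ℝ :=
  if j = 0 then 1 else if j = 1 then -1 / 2 else if j = 2 then -1 else (-1) ^ j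

lemma Pv_abs (j : ℕ) : |Pv j| ≤ 1 := by
  unfold Pv
  split_ifs
  · rw [abs_of_nonneg (by norm_num)]; norm_num
  · rw [abs_of_nonneg (by norm_num)]

lemma Qv_abs (j : ℕ) : |Qv j| ≤ 1 := by
  unfold Qv
  split_ifs
  · rw [abs_of_nonneg (by norm_num)]
  · rw [abs_of_nonpos (by norm_num)]; norm_num
  · rw [abs_of_nonpos (by norm_num)]; norm_num
  · rw [abs_pow]; simp

lemma sumPQ (n : ℕ) (hn : 1 ≤ n) : ∑ j ∈ range (2 * n + 1), Pv j * Qv j = 0 := by
  induction n, hn using Nat.le_induction with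
  | base =>
    simp only [mul_one, sum_range_succ, sum_range_zero, Pv, Qv]
    norm_num
  | succ n hn ih =>
    rw [show 2 * (n + 1) + 1 = 2 * n + 1 + 1 + 1 by ring, sum_range_succ, sum_range_succ, ih]
    have h1 : Pv (2 * n + 1) = 1 := by unfold Pv; rw [if_neg (by omega)]
    have h2 : Pv (2 * n + 1 + 1) = 1 := by unfold Pv; rw [if_neg (by omega)]
    have h3 : Qv (2 * n + 1) = -1 := by
      unfold Qv
      rw [if_neg (by omega), if_neg (by omega), if_neg (by omega)]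
      rw [pow_succ, pow_mul]; norm_num
    have h4 : Qv (2 * n + 1 + 1) = 1 := by
      unfold Qv
      rw [if_neg (by omega), if_neg (by omega), if_neg (by omega)]
      rw [show 2 * n + 1 + 1 = 2 * (n + 1) by ring, pow_mul]; norm_num
    rw [h1, h2, h3, h4]
    norm_num

lemma sumPP (n : ℕ) (hn : 1 ≤ n) : ∑ j ∈ range (2 * n + 1), Pv j ^ 2 = 2 * n + 1 / 4 := by
  induction n, hn using Nat.le_induction with
  | base =>
    simp only [mul_one, sum_range_succ, sum_range_zero, Pv]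
    norm_num
  | succ n hn ih =>
    rw [show 2 * (n + 1) + 1 = 2 * n + 1 + 1 + 1 by ring, sum_range_succ, sum_range_succ, ih]
    have h1 : Pv (2 * n + 1) = 1 := by unfold Pv; rw [if_neg (by omega)]
    have h2 : Pv (2 * n + 1 + 1) = 1 := by unfold Pv; rw [if_neg (by omega)]
    rw [h1, h2]
    push_cast
    ring

lemma sumQQ (n : ℕ) (hn : 1 ≤ n) : ∑ j ∈ range (2 * n + 1), Qv j ^ 2 = 2 * n + 1 / 4 := by
  induction n, hn using Nat.le_induction with
  | base =>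
    simp only [mul_one, sum_range_succ, sum_range_zero, Qv]
    norm_num
  | succ n hn ih =>
    rw [show 2 * (n + 1) + 1 = 2 * n + 1 + 1 + 1 by ring, sum_range_succ, sum_range_succ, ih]
    have hh : ∀ j : ℕ, 3 ≤ j → Qv j ^ 2 = 1 := by
      intro j hj
      unfold Qv
      rw [if_neg (by omega), if_neg (by omega), if_neg (by omega), ← pow_mul, mul_comm, pow_mul]
      norm_num
    rw [hh _ (by omega), hh _ (by omega)]
    push_cast
    ring

/-- Distances of the vertices of a square give its diagonals. -/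
theorem upper {n : ℕ} (s : ℝ) (hs : 0 < s)
    (g : EuclideanSpace ℝ (Fin 2) → EuclideanSpace ℝ (Fin (2 * n + 1))) (hg : Isometry g)
    (hin : ∀ x, (∀ i, 0 ≤ x i ∧ x i ≤ s) → ∀ j, 0 ≤ g x j ∧ g x j ≤ 1) :
    s ≤ Real.sqrt ((8 * n + 1) / 8) := by
  -- vertices
  obtain ⟨v0, hv0⟩ : ∃ v, v = g !₂[0, 0] := ⟨_, rfl⟩
  obtain ⟨v1, hv1⟩ : ∃ v, v = g !₂[s, 0] := ⟨_, rfl⟩
  obtain ⟨v2, hv2⟩ : ∃ v, v = g !₂[0, s] := ⟨_, rfl⟩
  obtain ⟨v3, hv3⟩ : ∃ v, v = g !₂[s, s] := ⟨_, rfl⟩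
  have b0 : ∀ j, 0 ≤ v0 j ∧ v0 j ≤ 1 := by
    rw [hv0]; apply hin; intro i; fin_cases i <;> simp [hs.le]
  have b1 : ∀ j, 0 ≤ v1 j ∧ v1 j ≤ 1 := by
    rw [hv1]; apply hin; intro i; fin_cases i <;> simp [hs.le]
  have b2 : ∀ j, 0 ≤ v2 j ∧ v2 j ≤ 1 := by
    rw [hv2]; apply hin; intro i; fin_cases i <;> simp [hs.le]
  have b3 : ∀ j, 0 ≤ v3 j ∧ v3 j ≤ 1 := by
    rw [hv3]; apply hin; intro i; fin_cases i <;> simp [hs.le]
  have dsq : ∀ x y : EuclideanSpace ℝ (Fin (2 * n + 1)),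
      dist x y ^ 2 = ∑ j, (x j - y j) ^ 2 := by
    intro x y
    rw [EuclideanSpace.dist_eq, Real.sq_sqrt (sum_nonneg fun _ _ => by positivity)]
    exact sum_congr rfl fun j _ => by rw [Real.dist_eq, sq_abs]
  have dsq2 : ∀ x y : EuclideanSpace ℝ (Fin 2), dist x y ^ 2 = (x 0 - y 0) ^ 2 + (x 1 - y 1) ^ 2 := by
    intro x y
    rw [EuclideanSpace.dist_eq, Real.sq_sqrt (sum_nonneg fun _ _ => by positivity),
      Fin.sum_univ_two, Real.dist_eq, Real.dist_eq, sq_abs, sq_abs]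
  have d01 : ∑ j, (v0 j - v1 j) ^ 2 = s ^ 2 := by
    rw [← dsq, hv0, hv1, hg.dist_eq, dsq2]; simp
  have d02 : ∑ j, (v0 j - v2 j) ^ 2 = s ^ 2 := by
    rw [← dsq, hv0, hv2, hg.dist_eq, dsq2]; simp
  have d03 : ∑ j, (v0 j - v3 j) ^ 2 = 2 * s ^ 2 := by
    rw [← dsq, hv0, hv3, hg.dist_eq, dsq2]; simp; ring
  have d12 : ∑ j, (v1 j - v2 j) ^ 2 = 2 * s ^ 2 := by
    rw [← dsq, hv1, hv2, hg.dist_eq, dsq2]; simp; ring
  have d13 : ∑ j, (v1 j - v3 j) ^ 2 = s ^ 2 := by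
    rw [← dsq, hv1, hv3, hg.dist_eq, dsq2]; simp
  have d23 : ∑ j, (v2 j - v3 j) ^ 2 = s ^ 2 := by
    rw [← dsq, hv2, hv3, hg.dist_eq, dsq2]; simp
  have hdot : ∑ j, (v3 j - v0 j) * (v1 j - v2 j) = 0 := by
    have e : ∀ j, (v3 j - v0 j) * (v1 j - v2 j) = ((v2 j - v3 j) ^ 2 + (v0 j - v1 j) ^ 2
        - (v1 j - v3 j) ^ 2 - (v0 j - v2 j) ^ 2) / 2 := fun j => by ring
    rw [sum_congr rfl fun j _ => e j, ← Finset.sum_div, sum_sub_distrib, sum_sub_distrib,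
      sum_add_distrib, d01, d02, d13, d23]
    ring
  have hc := core (N := 2 * n + 1) ⟨n, rfl⟩ (fun j => v3 j - v0 j) (fun j => v1 j - v2 j)
    (fun j => abs_le.2 ⟨by linarith [(b3 j).1, (b0 j).2], by linarith [(b3 j).2, (b0 j).1]⟩)
    (fun j => abs_le.2 ⟨by linarith [(b1 j).1, (b2 j).2], by linarith [(b1 j).2, (b2 j).1]⟩)
    hdot (by
      rw [d12, ← d03]
      exact sum_congr rfl fun j _ => by ring)
  have h2 : ∑ j, (v3 j - v0 j) ^ 2 = 2 * s ^ 2 := by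
    rw [← d03]
    exact sum_congr rfl fun j _ => by ring
  rw [h2] at hc
  push_cast at hc
  apply Real.le_sqrt_of_sq_le
  linarith

/-- The extremal square. -/
theorem lower (n : ℕ) (hn : 1 ≤ n) : ∃ g : EuclideanSpace ℝ (Fin 2) →
    EuclideanSpace ℝ (Fin (2 * n + 1)), Isometry g ∧
    ∀ x, (∀ i, 0 ≤ x i ∧ x i ≤ Real.sqrt ((8 * n + 1) / 8)) → ∀ j, 0 ≤ g x j ∧ g x j ≤ 1 := by
  obtain ⟨s, hs⟩ : ∃ s, s = Real.sqrt ((8 * (n : ℝ) + 1) / 8) := ⟨_, rfl⟩
  have hs2 : s ^ 2 = (8 * (n : ℝ) + 1) / 8 := by rw [hs, Real.sq_sqrt (by positivity)]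
  have hs0 : 0 < s := by rw [hs]; apply Real.sqrt_pos.2; positivity
  obtain ⟨V, hV⟩ : ∃ V : EuclideanSpace ℝ (Fin (2 * n + 1)), ∀ j, V j = (1 - Pv j) / 2 :=
    ⟨WithLp.toLp 2 (fun j => (1 - Pv j) / 2), fun j => rfl⟩
  obtain ⟨g, hgd⟩ : ∃ g : EuclideanSpace ℝ (Fin 2) → EuclideanSpace ℝ (Fin (2 * n + 1)),
      ∀ x j, g x j = (1 - Pv j) / 2 + x 0 / s * ((Pv j + Qv j) / 2) + x 1 / s * ((Pv j - Qv j) / 2) :=
    ⟨fun x => WithLp.toLp 2 (fun j => (1 - Pv j) / 2 + x 0 / s * ((Pv j + Qv j) / 2)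
      + x 1 / s * ((Pv j - Qv j) / 2)), fun x j => rfl⟩
  have S1 : ∑ j : Fin (2 * n + 1), Pv j * Qv j = 0 := by
    rw [Fin.sum_univ_eq_sum_range (fun j => Pv j * Qv j)]; exact sumPQ n hn
  have S2 : ∑ j : Fin (2 * n + 1), Pv j ^ 2 = 2 * n + 1 / 4 := by
    rw [Fin.sum_univ_eq_sum_range (fun j => Pv j ^ 2)]; exact sumPP n hn
  have S3 : ∑ j : Fin (2 * n + 1), Qv j ^ 2 = 2 * n + 1 / 4 := by
    rw [Fin.sum_univ_eq_sum_range (fun j => Qv j ^ 2)]; exact sumQQ n hn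
  refine ⟨g, ?_, ?_⟩
  · refine Isometry.of_dist_eq fun x y => ?_
    have h1 : dist (g x) (g y) ^ 2 = dist x y ^ 2 := by
      rw [EuclideanSpace.dist_eq, EuclideanSpace.dist_eq,
        Real.sq_sqrt (sum_nonneg fun _ _ => by positivity),
        Real.sq_sqrt (sum_nonneg fun _ _ => by positivity), Fin.sum_univ_two, Real.dist_eq,
        Real.dist_eq, sq_abs, sq_abs]
      obtain ⟨a, ha⟩ : ∃ a, a = (x 0 - y 0) / s := ⟨_, rfl⟩
      obtain ⟨b, hb⟩ : ∃ b, b = (x 1 - y 1) / s := ⟨_, rfl⟩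
      have hax : x 0 - y 0 = a * s := by rw [ha]; field_simp
      have hbx : x 1 - y 1 = b * s := by rw [hb]; field_simp
      have e : ∀ j : Fin (2 * n + 1), dist (g x j) (g y j) ^ 2 =
          (a + b) ^ 2 / 4 * Pv j ^ 2 + (a - b) ^ 2 / 4 * Qv j ^ 2
            + (a + b) * (a - b) / 2 * (Pv j * Qv j) := by
        intro j
        rw [Real.dist_eq, sq_abs, hgd, hgd, ha, hb]
        ring
      rw [sum_congr rfl fun j _ => e j, sum_add_distrib, sum_add_distrib, ← Finset.mul_sum,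
        ← Finset.mul_sum, ← Finset.mul_sum, S1, S2, S3, hax, hbx]
      have : (a * s) ^ 2 + (b * s) ^ 2 = (a ^ 2 + b ^ 2) * s ^ 2 := by ring
      rw [this, hs2]
      ring
    exact (pow_left_inj₀ dist_nonneg dist_nonneg two_ne_zero).1 h1
  · intro x hx j
    rw [← hs] at hx
    obtain ⟨a, ha⟩ : ∃ a, a = x 0 / s := ⟨_, rfl⟩
    obtain ⟨b, hb⟩ : ∃ b, b = x 1 / s := ⟨_, rfl⟩
    have a0 : 0 ≤ a := by rw [ha]; exact div_nonneg (hx 0).1 hs0.le
    have a1 : a ≤ 1 := by rw [ha, div_le_one hs0]; exact (hx 0).2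
    have b0 : 0 ≤ b := by rw [hb]; exact div_nonneg (hx 1).1 hs0.le
    have b1 : b ≤ 1 := by rw [hb, div_le_one hs0]; exact (hx 1).2
    have hP := abs_le.1 (Pv_abs j)
    have hQ := abs_le.1 (Qv_abs j)
    rw [hgd, ← ha, ← hb]
    have k1 : 0 ≤ (1 - a) * (1 - b) := mul_nonneg (by linarith) (by linarith)
    have k2 : 0 ≤ a * (1 - b) := mul_nonneg a0 (by linarith)
    have k3 : 0 ≤ (1 - a) * b := mul_nonneg (by linarith) b0
    have k4 : 0 ≤ a * b := mul_nonneg a0 b0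
    have e1 : (1 - Pv j) / 2 + a * ((Pv j + Qv j) / 2) + b * ((Pv j - Qv j) / 2)
        = (1 - a) * (1 - b) * ((1 - Pv j) / 2) + a * (1 - b) * ((1 + Qv j) / 2)
          + (1 - a) * b * ((1 - Qv j) / 2) + a * b * ((1 + Pv j) / 2) := by ring
    have e2 : 1 - ((1 - Pv j) / 2 + a * ((Pv j + Qv j) / 2) + b * ((Pv j - Qv j) / 2))
        = (1 - a) * (1 - b) * ((1 + Pv j) / 2) + a * (1 - b) * ((1 - Qv j) / 2)
          + (1 - a) * b * ((1 + Qv j) / 2) + a * b * ((1 - Pv j) / 2) := by ring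
    have m1 := mul_nonneg k1 (show 0 ≤ (1 - Pv j) / 2 by linarith)
    have m2 := mul_nonneg k2 (show 0 ≤ (1 + Qv j) / 2 by linarith)
    have m3 := mul_nonneg k3 (show 0 ≤ (1 - Qv j) / 2 by linarith)
    have m4 := mul_nonneg k4 (show 0 ≤ (1 + Pv j) / 2 by linarith)
    have m5 := mul_nonneg k1 (show 0 ≤ (1 + Pv j) / 2 by linarith)
    have m6 := mul_nonneg k2 (show 0 ≤ (1 - Qv j) / 2 by linarith)
    have m7 := mul_nonneg k3 (show 0 ≤ (1 + Qv j) / 2 by linarith)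
    have m8 := mul_nonneg k4 (show 0 ≤ (1 - Pv j) / 2 by linarith)
    constructor
    · rw [e1]; linarith
    · linarith [e2]

end Pool.Agent.N383.BF
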