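import Pool.Agent.N979.CAP.Stm

/-! # Project CAP, ZZZ: one numerical integral (helper383) -/

set_option autoImplicit false

namespace Pool.Agent.N383.CAP_ZZZ

open Real MeasureTheory Set
open Pool.Agent.N979.CAP

theorem parts (s : ℝ) (h0 : 0 ≤ s) (h1 : s < 1) :
    ∫ ψ in (0 : ℝ)..π, cos ψ * arcsin (s * cos ψ) = s * It s := by
  have habs : ∀ ψ, |s * cos ψ| < 1 := by
    intro ψ
    rw [abs_mul, abs_of_nonneg h0]
    calc s * |cos ψ| ≤ s * 1 := mul_le_mul_of_nonneg_left (abs_cos_le_one ψ) h0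
      _ < 1 := by linarith
  have hDpos : ∀ ψ, 0 < DD s ψ := by
    intro ψ
    have h2 := habs ψ
    rw [← sq_lt_one_iff_abs_lt_one] at h2
    unfold DD
    nlinarith
  have hd : ∀ ψ, HasDerivAt (fun ψ => sin ψ * arcsin (s * cos ψ))
      (cos ψ * arcsin (s * cos ψ) - s * (sin ψ ^ 2 / √(DD s ψ))) ψ := by
    intro ψ
    have h2 : HasDerivAt (fun ψ => s * cos ψ) (s * -sin ψ) ψ := (hasDerivAt_cos ψ).const_mul s
    have h3 : HasDerivAt arcsin (1 / √(1 - (s * cos ψ) ^ 2)) (s * cos ψ) :=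
      hasDerivAt_arcsin (abs_lt.1 (habs ψ)).1.ne' (abs_lt.1 (habs ψ)).2.ne
    have h4 := (hasDerivAt_sin ψ).mul (h3.comp ψ h2)
    convert! h4 using 1
    have e1 : 1 - (s * cos ψ) ^ 2 = DD s ψ := by
      unfold DD
      ring
    rw [e1]
    simp only [Function.comp]
    ring
  have hc1 : Continuous fun ψ => cos ψ * arcsin (s * cos ψ) := by
    fun_prop
  have hc2 : Continuous fun ψ => sin ψ ^ 2 / √(DD s ψ) := by
    refine Continuous.div (by fun_prop) ?_ fun ψ => (sqrt_pos.2 (hDpos ψ)).ne'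
    unfold DD
    fun_prop
  have hI := intervalIntegral.integral_eq_sub_of_hasDerivAt (a := 0) (b := π)
    (fun ψ _ => hd ψ) ((hc1.sub (hc2.const_mul s)).intervalIntegrable _ _)
  rw [intervalIntegral.integral_sub (hc1.intervalIntegrable _ _)
    ((hc2.const_mul s).intervalIntegrable _ _), intervalIntegral.integral_const_mul] at hI
  rw [sin_pi, sin_zero, zero_mul, zero_mul, sub_zero, sub_eq_zero] at hI
  exact hI

theorem main (h : S_LOW) : S_ZZZ := by
  unfold S_ZZZ
  rw [parts (471 / 500) (by norm_num) (by norm_num)]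
  have h1 := (h (471 / 500) (by norm_num) (by norm_num) (221841 / 278159) (by norm_num)).2
  have h2 : (1.34072 : ℝ) ≤ √(1 + 221841 / 278159) := by
    apply le_sqrt_of_sq_le
    norm_num
  have h3 : (0.88348 : ℝ) ≤ Qt (221841 / 278159) := by
    unfold Qt
    norm_num
  have h4 : (3.141592 : ℝ) / 2 ≤ π / 2 := by
    have := pi_gt_d6
    linarith
  have h5 : (1.34072 : ℝ) * (3.141592 / 2) * 0.88348 ≤
      √(1 + 221841 / 278159) * (π / 2) * Qt (221841 / 278159) := by
    refine mul_le_mul (mul_le_mul h2 h4 (by norm_num) (sqrt_nonneg _)) h3 (by norm_num) ?_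
    exact mul_nonneg (sqrt_nonneg _) (by positivity)
  have h6 := h5.trans h1
  norm_num at h6 ⊢
  linarith

end Pool.Agent.N383.CAP_ZZZ

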