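import Pool.Agent.N378.KH.Stm

/-!
# Project KH, leaf LIN: the volume of the affine image of the slopes (helper383)
-/

set_option autoImplicit false

open MeasureTheory Finset
open scoped ENNReal

namespace Pool.Agent.N383.KH

open Pool.Agent.N378.KH

variable {n m : ℕ}

theorem upd_sa (j : Fin (m + 1)) (Q : Finset (Fin n)) (x : Fin n × Fin (m + 1) → ℝ)
    (y : (Q ×ˢ {j} : Finset (Fin n × Fin (m + 1))) → ℝ) (i : Fin n) (l : Fin m) :
    Function.updateFinset x (Q ×ˢ {j}) y (i, j.succAbove l) = x (i, j.succAbove l) := by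
  unfold Function.updateFinset
  rw [dif_neg]
  rw [mem_product, not_and]
  intro _ h
  rw [mem_singleton] at h
  exact Fin.succAbove_ne j l h

theorem upd_out (j : Fin (m + 1)) (Q : Finset (Fin n)) (x : Fin n × Fin (m + 1) → ℝ)
    (y : (Q ×ˢ {j} : Finset (Fin n × Fin (m + 1))) → ℝ) (i : Fin n) (hi : i ∉ Q) (c : Fin (m + 1)) :
    Function.updateFinset x (Q ×ˢ {j}) y (i, c) = x (i, c) := by
  unfold Function.updateFinset
  rw [dif_neg]
  rw [mem_product, not_and]
  intro h
  exact absurd h hi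

theorem ht_out (j : Fin (m + 1)) (a : Fin m → ℝ) (Q : Finset (Fin n)) (x : Fin n × Fin (m + 1) → ℝ)
    (y : (Q ×ˢ {j} : Finset (Fin n × Fin (m + 1))) → ℝ) (i : Fin n) (hi : i ∉ Q) :
    ht j a (Function.updateFinset x (Q ×ˢ {j}) y) i = ht j a x i := by
  unfold ht
  rw [upd_out j Q x y i hi j]
  congr 1
  exact sum_congr rfl fun l _ => by rw [upd_sa]

theorem below_upd (j : Fin (m + 1)) (s : ℝ) (a : Fin m → ℝ) (Q : Finset (Fin n)) (p : Fin n) (hp : p ∉ Q)
    (x : Fin n × Fin (m + 1) → ℝ) (y : (Q ×ˢ {j} : Finset (Fin n × Fin (m + 1))) → ℝ) :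
    below j s a (Function.updateFinset x (Q ×ˢ {j}) y) Q p = below j s a x Q p := by
  unfold below
  refine filter_congr fun i _ => ?_
  refine and_congr_right fun hi => ?_
  rw [ht_out j a Q x y i hi, ht_out j a Q x y p hp]

theorem slopes_upd (j : Fin (m + 1)) (s : ℝ) (k : ℕ) (Q : Finset (Fin n)) (p : Fin n) (hp : p ∉ Q)
    (x : Fin n × Fin (m + 1) → ℝ) (y : (Q ×ˢ {j} : Finset (Fin n × Fin (m + 1))) → ℝ) :
    slopes j s k Q p (Function.updateFinset x (Q ×ˢ {j}) y) = slopes j s k Q p x := by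
  unfold slopes
  ext a
  simp only [Set.mem_ofPred_eq]
  rw [below_upd j s a Q p hp x y]

/-- the affine image -/
theorem vol_aff (M : Matrix (Fin m) (Fin m) ℝ) (hM : ∀ i l, |M i l| ≤ 2) (b : Fin m → ℝ)
    (T : Set (Fin m → ℝ)) :
    volume ((fun a : Fin m → ℝ => b + a) '' ((Matrix.toLin' M) '' T)) ≤
      ENNReal.ofReal (m.factorial * 2 ^ m) * volume T := by
  rw [Set.image_add_left, measure_preimage_add, Measure.addHaar_image_linearMap, LinearMap.det_toLin']
  gcongr
  have h := Matrix.det_le (A := M) (abv := AbsoluteValue.abs) (x := 2) (fun i l => hM i l)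
  rw [Fintype.card_fin, nsmul_eq_mul] at h
  exact h

theorem t_LIN : S_LIN := by
  intro n m k j s Q p hQ hp x
  by_cases hx : ∀ e : Fin n × Fin (m + 1), e ∉ (Q ×ˢ {j} : Finset (Fin n × Fin (m + 1))) → |x e| ≤ 1
  swap
  · push Not at hx
    obtain ⟨e, he, h1⟩ := hx
    have h2 : {y : (Q ×ˢ {j} : Finset (Fin n × Fin (m + 1))) → ℝ |
      Function.updateFinset x (Q ×ˢ {j}) y ∈ Ev j s k Q p} = ∅ := by
      rw [Set.eq_empty_iff_forall_notMem]
      rintro y ⟨hy, -⟩
      have h3 := hy e
      unfold Function.updateFinset at h3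
      rw [dif_neg he] at h3
      linarith
    rw [h2, measure_empty]
    exact zero_le
  have hcard : (Q ×ˢ {j} : Finset (Fin n × Fin (m + 1))).card = m := by
    rw [card_product, card_singleton, mul_one, hQ]
  set S : Finset (Fin n × Fin (m + 1)) := Q ×ˢ {j} with hS
  let e : S ≃ Fin m := S.equivFinOfCardEq hcard
  set M : Matrix (Fin m) (Fin m) ℝ := Matrix.of fun i l =>
    x ((e.symm i).1.1, j.succAbove l) - x (p, j.succAbove l) with hMdef
  have hns : ∀ (i : Fin n) (l : Fin m), (i, j.succAbove l) ∉ S := by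
    intro i l h
    rw [hS, mem_product, mem_singleton] at h
    exact Fin.succAbove_ne j l h.2
  have hM : ∀ i l, |M i l| ≤ 2 := by
    intro i l
    have h1 := hx _ (hns (e.symm i).1.1 l)
    have h2 := hx _ (hns p l)
    rw [hMdef, Matrix.of_apply]
    rw [abs_le] at h1 h2 ⊢
    constructor <;> linarith [h1.1, h1.2, h2.1, h2.2]
  have hmp := volume_measurePreserving_piCongrLeft (fun _ : Fin m => ℝ) e
  have hsub : {y : S → ℝ | Function.updateFinset x S y ∈ Ev j s k Q p} ⊆
      (MeasurableEquiv.piCongrLeft (fun _ : Fin m => ℝ) e) ⁻¹'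
        ((fun a : Fin m → ℝ => (fun _ => x (p, j)) + a) '' ((Matrix.toLin' M) '' (slopes j s k Q p x))) := by
    rintro y ⟨-, a, ha, hq⟩
    rw [Set.mem_preimage]
    refine ⟨Matrix.toLin' M a, ⟨a, ?_, rfl⟩, ?_⟩
    · rwa [slopes_upd j s k Q p hp x y] at ha
    · funext i
      obtain ⟨t, rfl⟩ := e.surjective i
      rw [MeasurableEquiv.piCongrLeft_apply_apply (β := fun _ : Fin m => ℝ) e y t]
      obtain ⟨⟨q, c⟩, hqc⟩ := t
      have hqc' := hqc
      rw [hS, mem_product, mem_singleton] at hqc'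
      obtain ⟨hqQ, hc⟩ := hqc'
      simp only at hqQ hc
      subst hc
      have h1 := hq q hqQ
      rw [ht_out c a Q x y p hp] at h1
      unfold ht at h1
      have h2 : Function.updateFinset x S y (q, c) = y ⟨(q, c), hqc⟩ := by
        unfold Function.updateFinset
        rw [dif_pos hqc]
      have h3 : ∑ l, a l * Function.updateFinset x S y (q, c.succAbove l) =
          ∑ l, a l * x (q, c.succAbove l) := sum_congr rfl fun l _ =>
        congrArg (fun t => a l * t) (upd_sa c Q x y q l)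
      rw [h2, h3] at h1
      show x (p, c) + (Matrix.toLin' M a) (e ⟨(q, c), hqc⟩) = y ⟨(q, c), hqc⟩
      rw [Matrix.toLin'_apply, Matrix.mulVec, dotProduct]
      have h4 : ∑ l, M (e ⟨(q, c), hqc⟩) l * a l =
          ∑ l, a l * x (q, c.succAbove l) - ∑ l, a l * x (p, c.succAbove l) := by
        rw [← sum_sub_distrib]
        refine sum_congr rfl fun l _ => ?_
        rw [hMdef, Matrix.of_apply, Equiv.symm_apply_apply]
        ring
      rw [h4]
      linarith
  refine (measure_mono hsub).trans ?_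
  rw [hmp.measure_preimage_equiv]
  exact vol_aff M hM _ _

end Pool.Agent.N383.KH
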