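import Pool.Agent.N585.WC.Defs

/-!
# Project WC, task 6: a sequence of type ω₁ converging to zero (helper383)
-/

set_option autoImplicit false

namespace Pool.Agent.N383.WC

open Cardinal Set TopologicalSpace Topology
open Pool.Agent.N585.WC

/-- the index set -/
abbrev W1 : Type := (Cardinal.ord (ℵ₁ : Cardinal.{0})).ToType

set_option linter.deprecated false in
lemma cnt_Iio (i : W1) : (Set.Iio i).Countable := by
  rw [countable_iff_lt_aleph_one]
  exact Cardinal.mk_Iio_toType_ord_lt i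

lemma cnt_Iic (i : W1) : (Set.Iic i).Countable := by
  rw [← Set.Iio_insert]
  exact (cnt_Iio i).insert i

lemma not_cnt : ¬ (Set.univ : Set W1).Countable := by
  intro h
  rw [countable_iff_lt_aleph_one, Cardinal.mk_univ, Cardinal.mk_ord_toType] at h
  exact lt_irrefl _ h

/-- countably many indices have an upper bound -/
lemma exists_gt (v : ℕ → W1) : ∃ w, ∀ n, v n < w := by
  by_contra hcon
  push Not at hcon
  apply not_cnt
  refine (Set.countable_iUnion fun n => cnt_Iic (v n)).mono fun w _ => ?_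
  obtain ⟨n, hn⟩ := hcon w
  exact Set.mem_iUnion.2 ⟨n, hn⟩

theorem stmSeq : StmSeq := by
  intro J hJ K _ _ _ _ O hO hbase hcpt hx
  have hinf : Infinite J := by
    rw [Cardinal.infinite_iff, hJ]
    exact Cardinal.aleph0_le_aleph 1
  have hcard : #W1 = #(Finset J) := by
    rw [Cardinal.mk_finset_of_infinite, hJ, Cardinal.mk_ord_toType]
  obtain ⟨e⟩ := Cardinal.eq.1 hcard
  have hx' : ∀ w : W1, ∃ x : K, x ≠ 0 ∧ ∀ v < w, x ∈ O (e v) := by
    intro w
    obtain ⟨x, h1, h2⟩ := hx (e '' Set.Iio w) ((cnt_Iio w).image e)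
    exact ⟨x, h1, fun v hv => h2 _ ⟨v, hv, rfl⟩⟩
  choose x hx0 hxO using hx'
  -- convergence to zero
  have ha : ∀ W : Set K, IsOpen W → (0 : K) ∈ W → ∃ v, ∀ w, v < w → x w ∈ W := by
    intro W hW h0
    obtain ⟨F, hF⟩ := hbase W hW h0
    obtain ⟨v, hv⟩ := e.surjective F
    refine ⟨v, fun w hw => hF ?_⟩
    rw [← hv]
    exact hxO w v hw
  have h0C : (0 : K) ∈ closure (Set.range x) := by
    rw [mem_closure_iff]
    intro W hW h0
    obtain ⟨v, hv⟩ := ha W hW h0
    obtain ⟨w, hw⟩ := exists_gt fun _ => v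
    exact ⟨x w, hv w (hw 0), ⟨w, rfl⟩⟩
  refine ⟨closure (Set.range x), ?_, ?_⟩
  · -- compactness
    refine isCompact_of_finite_subcover fun {ι} U hU hcov => ?_
    obtain ⟨i0, hi0⟩ := Set.mem_iUnion.1 (hcov h0C)
    obtain ⟨T, hT, hTc, hTU⟩ := exists_mem_nhds_isClosed_subset ((hU i0).mem_nhds hi0)
    obtain ⟨V, hVT, hV, h0V⟩ := mem_nhds_iff.1 hT
    obtain ⟨v, hv⟩ := ha V hV h0V
    have hA := hcpt (x '' Set.Iic v) ((cnt_Iic v).image x)
    have hsub : closure (Set.range x) ⊆ closure (x '' Set.Iic v) ∪ U i0 := by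
      have h1 : Set.range x ⊆ closure (x '' Set.Iic v) ∪ T := by
        rintro _ ⟨w, rfl⟩
        rcases le_or_gt w v with h | h
        · exact Or.inl (subset_closure ⟨w, h, rfl⟩)
        · exact Or.inr (hVT (hv w h))
      refine (closure_minimal h1 (isClosed_closure.union hTc)).trans ?_
      exact Set.union_subset_union_right _ hTU
    have hC := hA.inter_left (isClosed_closure : IsClosed (closure (Set.range x)))
    obtain ⟨t, ht⟩ := hC.elim_finite_subcover U hU (Set.inter_subset_left.trans hcov)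
    classical
    refine ⟨insert i0 t, fun y hy => ?_⟩
    rcases hsub hy with h | h
    · obtain ⟨i, hi, hyi⟩ := Set.mem_iUnion₂.1 (ht ⟨hy, h⟩)
      exact Set.mem_iUnion₂.2 ⟨i, Finset.mem_insert_of_mem hi, hyi⟩
    · exact Set.mem_iUnion₂.2 ⟨i0, Finset.mem_insert_self _ _, h⟩
  · -- no countable base
    intro hsc
    obtain ⟨N, hN⟩ := (𝓝 (⟨0, h0C⟩ : closure (Set.range x))).exists_antitone_basis
    have h1 : ∀ n, ∃ v, ∀ w, v < w → (⟨x w, subset_closure ⟨w, rfl⟩⟩ :
        closure (Set.range x)) ∈ N n := by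
      intro n
      have h2 := hN.1.mem_of_mem (i := n) trivial
      rw [mem_nhds_induced] at h2
      obtain ⟨u, hu, huN⟩ := h2
      obtain ⟨U, hUu, hU, h0U⟩ := mem_nhds_iff.1 hu
      obtain ⟨v, hv⟩ := ha U hU h0U
      exact ⟨v, fun w hw => huN (hUu (hv w hw))⟩
    choose v hv using h1
    obtain ⟨w, hw⟩ := exists_gt v
    have hne : (⟨x w, subset_closure ⟨w, rfl⟩⟩ : closure (Set.range x)) ≠ ⟨0, h0C⟩ := by
      intro h
      exact hx0 w (congrArg Subtype.val h)
    have h3 : ({⟨x w, subset_closure ⟨w, rfl⟩⟩}ᶜ : Set (closure (Set.range x))) ∈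
        𝓝 (⟨0, h0C⟩ : closure (Set.range x)) :=
      isOpen_compl_singleton.mem_nhds hne.symm
    obtain ⟨n, -, hn⟩ := hN.1.mem_iff.1 h3
    exact hn (hv n w (hw n)) rfl

end Pool.Agent.N383.WC

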